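import Pool.Agent.Lib.MP_9323ee_an.Quant

set_option autoImplicit false

/-!
`ℓ_∞` is not Lipschitz homeomorphic to a subset of `c_0(Γ)`, for any set `Γ`.
-/

open scoped ENNReal

namespace Pool.Agent.Results.MP_9323ee_an.NoEmbedding

universe u

/-- `ℓ_∞`: bounded real sequences with the supremum norm -/
abbrev Linf : Type := lp (fun _ : ℕ => ℝ) ∞

/-- `c_0(Γ)`: the functions `x : Γ → ℝ` for which `{γ | |x γ| > ε}` is finite for every `ε > 0`,
with the supremum metric (a subset of the bounded functions on `Γ`) -/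
def c0 (Γ : Type u) : Set (lp (fun _ : Γ => ℝ) ∞) :=
  {x | ∀ ε : ℝ, 0 < ε → {γ | ε < |x γ|}.Finite}

/-- `M` is Lipschitz homeomorphic to a subset of `N` -/
def LipschitzHomeomorphicToSubset (M N : Type*) [MetricSpace M] [MetricSpace N] : Prop :=
  ∃ (f : M → N) (a b : ℝ), 0 < a ∧ a ≤ b ∧
    ∀ x y, a * dist x y ≤ dist (f x) (f y) ∧ dist (f x) (f y) ≤ b * dist x y

/-- all coordinates of `x` are in `{0, δ, 2 δ, ..., n δ}` -/
def OnGrid (δ : ℝ) (n : ℕ) (x : Linf) : Prop := ∀ m : ℕ, ∃ j : ℕ, j ≤ n ∧ x m = j * δ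

private noncomputable def P (δ : ℝ) (n : ℕ) (s : ℕ → ℕ) : Linf :=
  ⟨fun m => ((min (s m) n : ℕ) : ℝ) * δ, by
    apply memℓp_infty
    refine ⟨(n : ℝ) * |δ|, ?_⟩
    rintro _ ⟨m, rfl⟩
    simp only [Real.norm_eq_abs, abs_mul, Nat.abs_cast]
    refine mul_le_mul_of_nonneg_right ?_ (abs_nonneg _)
    exact_mod_cast min_le_right _ _⟩

private theorem P_apply (δ : ℝ) (n : ℕ) (s : ℕ → ℕ) (m : ℕ) :
    (P δ n s : ℕ → ℝ) m = ((min (s m) n : ℕ) : ℝ) * δ := rfl

private theorem P_grid (δ : ℝ) (n : ℕ) (s : ℕ → ℕ) : OnGrid δ n (P δ n s) :=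
  fun m => ⟨min (s m) n, min_le_right _ _, rfl⟩

private theorem dist_P_le {δ : ℝ} (hδ : 0 < δ) {n : ℕ} {s t : ℕ → ℕ} (hs : ∀ m, s m ≤ n)
    (ht : ∀ m, t m ≤ n) {k : ℕ} (h : ∀ m, s m ≤ t m + k ∧ t m ≤ s m + k) :
    dist (P δ n s) (P δ n t) ≤ k * δ := by
  rw [dist_eq_norm]
  apply lp.norm_le_of_forall_le (by positivity)
  intro m
  rw [lp.coeFn_sub, Pi.sub_apply, P_apply, P_apply, Real.norm_eq_abs, ← sub_mul, abs_mul,
    abs_of_pos hδ, min_eq_left (hs m), min_eq_left (ht m)]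
  refine mul_le_mul_of_nonneg_right ?_ hδ.le
  obtain ⟨h1, h2⟩ := h m
  have h1' : (s m : ℝ) ≤ t m + k := by exact_mod_cast h1
  have h2' : (t m : ℝ) ≤ s m + k := by exact_mod_cast h2
  rw [abs_sub_le_iff]
  constructor <;> linarith

private theorem le_dist_P {δ : ℝ} (hδ : 0 < δ) {n : ℕ} {s t : ℕ → ℕ} (hs : ∀ m, s m ≤ n)
    {m : ℕ} (h1 : s m = n) (h2 : t m = 0) : n * δ ≤ dist (P δ n s) (P δ n t) := by
  rw [dist_eq_norm]
  have h := lp.norm_apply_le_norm (by simp : (∞ : ENNReal) ≠ 0) (P δ n s - P δ n t) m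
  rw [lp.coeFn_sub, Pi.sub_apply, P_apply, P_apply, Real.norm_eq_abs, min_eq_left (hs m), h1,
    h2] at h
  simp only [Nat.zero_min, Nat.cast_zero, zero_mul, sub_zero] at h
  refine le_trans (le_abs_self _) h

private theorem main (Γ : Type u) (δ : ℝ) (n : ℕ) (f : Linf → c0 Γ) (M ε : ℝ) (hδ : 0 < δ)
    (hε : 0 < ε) (h : ∀ x y, OnGrid δ n x → OnGrid δ n y → dist x y ≤ δ →
      dist (f x) (f y) ≤ M) :
    ∃ x y, OnGrid δ n x ∧ OnGrid δ n y ∧ dist x y = n * δ ∧ dist (f x) (f y) ≤ 2 * M + ε := by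
  have hM : 0 ≤ M := by
    have := h (P δ n fun _ => 0) (P δ n fun _ => 0) (P_grid _ _ _) (P_grid _ _ _)
      (by rw [dist_self]; exact hδ.le)
    rwa [dist_self] at this
  obtain ⟨s, t, hs, ht, ⟨m, hm1, hm2⟩, hst⟩ :=
    Pool.Agent.Lib.MP_9323ee_an.quant n (fun s γ => (f (P δ n s)).1 γ)
      (fun s _ ε hε => (f (P δ n s)).2 ε hε) M ε hM hε (by
        intro s t hs ht hst γ
        have h1 := h (P δ n s) (P δ n t) (P_grid _ _ _) (P_grid _ _ _) (by
          have := dist_P_le hδ hs ht (k := 1) hst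
          rwa [Nat.cast_one, one_mul] at this)
        rw [Subtype.dist_eq, dist_eq_norm] at h1
        have h2 := lp.norm_apply_le_norm (by simp : (∞ : ENNReal) ≠ 0)
          ((f (P δ n s)).1 - (f (P δ n t)).1) γ
        rw [lp.coeFn_sub, Pi.sub_apply, Real.norm_eq_abs] at h2
        exact le_trans h2 h1)
  refine ⟨P δ n s, P δ n t, P_grid _ _ _, P_grid _ _ _, ?_, ?_⟩
  · refine le_antisymm (dist_P_le hδ hs ht fun m => ?_) (le_dist_P hδ hs hm1 hm2)
    have := hs m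
    have := ht m
    omega
  · rw [Subtype.dist_eq, dist_eq_norm]
    apply lp.norm_le_of_forall_le (by positivity)
    intro γ
    rw [lp.coeFn_sub, Pi.sub_apply, Real.norm_eq_abs]
    exact hst γ

/-- For every set `Γ` (in particular for `Γ` of the cardinality of the continuum) `ℓ_∞` is not
Lipschitz homeomorphic to a subset of `c_0(Γ)`. In fact: if `f` maps `ℓ_∞` to `c_0(Γ)` and points
with coordinates in `{0, δ, ..., n δ}` at distance `≤ δ` have images at distance `≤ M`, then two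
such points at distance `n δ` have images at distance `≤ 2 M + ε`. -/
theorem result (Γ : Type u) :
    ¬ LipschitzHomeomorphicToSubset Linf (c0 Γ) ∧
    ∀ (δ : ℝ) (n : ℕ) (f : Linf → c0 Γ) (M ε : ℝ), 0 < δ → 0 < ε →
      (∀ x y, OnGrid δ n x → OnGrid δ n y → dist x y ≤ δ → dist (f x) (f y) ≤ M) →
      ∃ x y, OnGrid δ n x ∧ OnGrid δ n y ∧ dist x y = n * δ ∧
        dist (f x) (f y) ≤ 2 * M + ε := by
  refine ⟨?_, fun δ n f M ε hδ hε h => main Γ δ n f M ε hδ hε h⟩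
  rintro ⟨f, a, b, ha, hab, hf⟩
  obtain ⟨n, hn⟩ := exists_nat_gt ((2 * b + 1) / a)
  rw [div_lt_iff₀ ha] at hn
  obtain ⟨x, y, -, -, hxy, hfxy⟩ := main Γ 1 n f b 1 one_pos one_pos (by
    intro x y _ _ hxy
    have h1 := (hf x y).2
    have h2 : b * dist x y ≤ b * 1 := mul_le_mul_of_nonneg_left hxy (by linarith)
    linarith)
  have h1 := (hf x y).1
  rw [hxy, mul_one] at h1
  linarith [mul_comm a (n : ℝ)]

end Pool.Agent.Results.MP_9323ee_an.NoEmbedding
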